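import Pool.Agent.U789.Zk.Final

set_option autoImplicit false

/-!
# Maximum order complexity of the Zeckendorf parity sequence

Exact value of the `N`-th maximum order complexity for every `N > 4`, and the
non-existence of the limit of `M(N) / N`.
-/

namespace Pool.Agent.Results.MP_b74c76_co.ExactComplexity

open Nat

/-- The Zeckendorf parity sequence: `true` at `n` iff the Zeckendorf representation of `n`
has an odd number of terms (`Nat.zeckendorf n` is the list of the indices of its terms). -/
def zeckParity (n : ℕ) : Bool := decide ((Nat.zeckendorf n).length % 2 = 1)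

/-- The `N`-th maximum order complexity of a binary sequence `s`: the least `κ` for which there
is a feedback function `f` of `κ` variables with `s (i + κ) = f (s i, …, s (i + κ - 1))` for
all `i` with `i + κ < N`. -/
noncomputable def maxOrderComplexity (s : ℕ → Bool) (N : ℕ) : ℕ :=
  sInf {κ : ℕ | ∃ f : (Fin κ → Bool) → Bool, ∀ i : ℕ, i + κ < N →
    s (i + κ) = f (fun j : Fin κ => s (i + (j : ℕ)))}

/-- With `L_k = F_{k+1} + F_{k-1}`: if `k ≥ 3` and `L_k < N ≤ L_{k+1}` then
`M(S_Z, N) = F_{k-1} + 1 + (k mod 2)`. Consequently `M(S_Z, N) / N` has no limit; in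
particular `M(S_Z, N) ∼ N / (1 + φ ^ 2)` is false. -/
theorem result :
    (∀ k N : ℕ, 3 ≤ k → Nat.fib (k + 1) + Nat.fib (k - 1) < N →
      N ≤ Nat.fib (k + 2) + Nat.fib k →
      maxOrderComplexity zeckParity N = Nat.fib (k - 1) + 1 + k % 2) ∧
    (¬ ∃ c : ℝ, Filter.Tendsto (fun N : ℕ => (maxOrderComplexity zeckParity N : ℝ) / (N : ℝ))
      Filter.atTop (nhds c)) := by
  refine ⟨?_, ?_⟩
  · intro k N hk h1 h2
    have h3 : N ≤ U789.Zk.Lu (k + 1) := h2
    exact U789.Zk.MOC_eq hk h1 h3
  · exact U789.Zk.no_limit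

end Pool.Agent.Results.MP_b74c76_co.ExactComplexity
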